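import Pool.Agent.Wief.General

/-!
# Primes `p ≡ 1 mod m` whose exponent in `b ^ (p - 1) - 1` is not divisible by `r`

For every base `b ≥ 2`, every `m ≥ 1` and every `r ≥ 2`, the number of primes `p ≤ x` such that
`m` divides the order of `b` modulo `p` (so `p ≡ 1 mod m`) and such that the exponent of the exact
power of `p` which divides `b ^ (p - 1) - 1` is not divisible by `r` is at least
`c log x / log log x`.
-/

set_option autoImplicit false

namespace Pool.Agent.Results.MP_62d99c_nt.AnyModulus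

open Pool.Agent.Wief
open scoped Classical

theorem result (b m r : ℕ) (hb : 2 ≤ b) (hm : 1 ≤ m) (hr : 2 ≤ r) :
    ∃ c : ℝ, 0 < c ∧ ∃ x₀ : ℕ, ∀ x : ℕ, x₀ ≤ x →
      c * (Real.log x / Real.log (Real.log x)) ≤
        ((Finset.range (x + 1)).filter fun p => p.Prime ∧ m ∣ orderOf (b : ZMod p) ∧
          ¬ r ∣ padicValNat p (b ^ (p - 1) - 1)).card := by
  obtain ⟨c, hc, x₀, h⟩ := count_general b m r hb hm hr
  refine ⟨c, hc, x₀, fun x hx => (h x hx).trans ?_⟩
  have hsub : ((Finset.range (x + 1)).filter fun p => Gp b m r p) ⊆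
      ((Finset.range (x + 1)).filter fun p => p.Prime ∧ m ∣ orderOf (b : ZMod p) ∧
          ¬ r ∣ padicValNat p (b ^ (p - 1) - 1)) := by
    intro p hp
    rw [Finset.mem_filter] at hp ⊢
    exact hp
  exact_mod_cast Finset.card_le_card hsub

end Pool.Agent.Results.MP_62d99c_nt.AnyModulus
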