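import Pool.Agent.H76.CountTwo

set_option autoImplicit false

namespace Pool.Agent.Results.MP_62d99c_nt.CountBaseTwo

open Pool.Agent.H76

/-- `W ℓ k` is the set of primes `p` with `ℓ ^ (p - 1) ≡ 1 (mod p ^ k)`. -/
def W (ℓ k : ℕ) : Set ℕ := {p | p.Prime ∧ ℓ ^ (p - 1) ≡ 1 [MOD p ^ k]}

/-- For every `x`, the number `E(x)` of primes `p ≤ x`, `p ≡ 3 (mod 4)`, such that the exact
exponent of `p` in `2 ^ (p - 1) - 1` is odd satisfies `⌊log₂ x⌋ ≤ 4 E(x) + 4`. -/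
theorem result (x : ℕ) :
    Nat.log 2 x ≤ 4 * {p : ℕ | p ≤ x ∧ p % 4 = 3 ∧
      ∃ k : ℕ, Odd k ∧ p ∈ W 2 k \ W 2 (k + 1)}.ncard + 4 := by
  rcases Nat.eq_zero_or_pos x with rfl | hx
  · simp
  set N := Nat.log 2 x with hN
  set E := {p : ℕ | p ≤ x ∧ p % 4 = 3 ∧ ∃ k : ℕ, Odd k ∧ p ∈ W 2 k \ W 2 (k + 1)} with hE
  have hfin : E.Finite := (Set.finite_Iic x).subset (fun p hp => hp.1)
  set S := goodSet N with hS
  have hex : ∀ n, ∃ p, n ∈ S → (p.Prime ∧ p < 2 ^ n ∧ p % 4 = 3 ∧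
      orderOf ((2 : ℕ) : ZMod p) = n ∧ Odd (padicValNat p (2 ^ (p - 1) - 1))) := by
    intro n
    by_cases hn : n ∈ S
    · rw [hS, mem_goodSet] at hn
      obtain ⟨p, hp⟩ := exists_prime_of_not_intrinsic hn.1.1 hn.2.1 hn.2.2
      exact ⟨p, fun _ => hp⟩
    · exact ⟨0, fun h => absurd h hn⟩
  choose f hf using hex
  have hcard : S.card ≤ E.ncard := by
    rw [Set.ncard_eq_toFinset_card E hfin]
    apply Finset.card_le_card_of_injOn f
    · intro n hn
      obtain ⟨h1, h2, h3, h4, h5⟩ := hf n hn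
      have hnN : n ≤ N := (mem_goodSet.1 (Finset.mem_coe.1 hn)).1.2
      have hpx : f n ≤ x := by
        have h6 : 2 ^ n ≤ 2 ^ N := Nat.pow_le_pow_right (by omega) hnN
        have h7 : 2 ^ N ≤ x := Nat.pow_log_le_self 2 (by omega)
        omega
      have := Fact.mk h1
      have h21 : 1 < 2 ^ (f n - 1) := Nat.one_lt_two_pow (by have := h1.two_le; omega)
      simp only [Set.Finite.coe_toFinset]
      refine ⟨hpx, h3, padicValNat (f n) (2 ^ (f n - 1) - 1), h5, ⟨h1, ?_⟩, ?_⟩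
      · exact ((Nat.modEq_iff_dvd' h21.le).2 pow_padicValNat_dvd).symm
      · rintro ⟨-, h⟩
        have h2 := (Nat.modEq_iff_dvd' h21.le).1 h.symm
        exact pow_succ_padicValNat_not_dvd (by omega) h2
    · intro a ha b hb hab
      have h1 := (hf a ha).2.2.2.1
      have h2 := (hf b hb).2.2.2.1
      rw [← h1, ← h2, hab]
  have hg := card_good N
  rw [hS] at hcard
  omega

end Pool.Agent.Results.MP_62d99c_nt.CountBaseTwo
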