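import Pool.Agent.Wief.Dens

/-!
# Primes with an odd exponent in `2 ^ (p - 1) - 1`, in the classes 3, 5, 7 mod 8

For `a = 3, 5, 7` and every odd squarefree `m`, the number of primes `p ≤ x` with `p ≡ a mod 8`,
such that `m` divides the order of 2 modulo `p` (so `p ≡ 1 mod m`) and such that the exact power of
`p` which divides `2 ^ (p - 1) - 1` has an odd exponent, is at least `c log x`.
-/

set_option autoImplicit false

namespace Pool.Agent.Results.MP_62d99c_nt.OddClasses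

open Pool.Agent.Wief
open scoped Classical

theorem ne_two {s p : ℕ} (hs : 0 < s) (h : ∃ k, Odd k ∧ orderOf (2 : ZMod p) = s * k)
    (hp : p.Prime) : p ≠ 2 := by
  rintro rfl
  obtain ⟨k, hk, hk2⟩ := h
  have h0 : (2 : ZMod 2) = 0 := by decide
  rw [h0] at hk2
  have h1 : orderOf (0 : ZMod 2) = 0 := by
    rw [orderOf_eq_zero_iff']
    intro n hn
    rw [zero_pow (by omega)]
    decide
  rw [h1] at hk2
  have : 0 < s * k := Nat.mul_pos hs hk.pos
  omega

theorem order_dvd_sub {p : ℕ} (hp : p.Prime) (h2 : p ≠ 2) : orderOf (2 : ZMod p) ∣ p - 1 := by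
  have : Fact p.Prime := ⟨hp⟩
  apply orderOf_dvd_of_pow_eq_one
  apply ZMod.pow_card_sub_one_eq_one
  intro h
  have h3 : ((2 : ℕ) : ZMod p) = 0 := by exact_mod_cast h
  rw [ZMod.natCast_eq_zero_iff] at h3
  exact h2 ((Nat.prime_dvd_prime_iff_eq hp Nat.prime_two).1 h3)

theorem class_seven {m p : ℕ} (hm : Odd m) (h : Rp m 4 p) : p % 8 = 7 := by
  obtain ⟨hp, hord, hv, hQ⟩ := h
  have hp2 := ne_two hm.pos hord hp
  have : Fact p.Prime := ⟨hp⟩
  obtain ⟨k, hk, hk2⟩ := hord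
  have hodd : Odd (m * k) := hm.mul hk
  obtain ⟨j, hj⟩ := hodd
  have hsq : IsSquare (2 : ZMod p) := by
    refine ⟨2 ^ (j + 1), ?_⟩
    have h1 := pow_orderOf_eq_one (2 : ZMod p)
    rw [hk2, hj] at h1
    have h2 : (2 : ZMod p) ^ (j + 1) * 2 ^ (j + 1) = 2 ^ (2 * j + 1) * 2 := by ring
    rw [h2, h1, one_mul]
  have h3 := (ZMod.exists_sq_eq_two_iff hp2).1 hsq
  rcases h3 with h3 | h3
  · exfalso
    apply hQ
    unfold Nat.ModEq
    omega
  · exact h3

theorem class_three {m p : ℕ} (hm : Odd m) (h : Rp (2 * m) 4 p) : p % 8 = 3 := by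
  obtain ⟨hp, hord, hv, hQ⟩ := h
  have hp2 := ne_two (by have := hm.pos; omega) hord hp
  have : Fact p.Prime := ⟨hp⟩
  obtain ⟨k, hk, hk2⟩ := hord
  have hodd : Odd (m * k) := hm.mul hk
  obtain ⟨j, hj⟩ := hodd
  have hsq : IsSquare (-2 : ZMod p) := by
    refine ⟨2 ^ (j + 1), ?_⟩
    have h1 := pow_orderOf_eq_one (2 : ZMod p)
    rw [hk2, mul_assoc, hj] at h1
    have h2 : ((2 : ZMod p) ^ (2 * j + 1) - 1) * ((2 : ZMod p) ^ (2 * j + 1) + 1) = 0 := by
      have h3 : ((2 : ZMod p) ^ (2 * j + 1) - 1) * ((2 : ZMod p) ^ (2 * j + 1) + 1) =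
          2 ^ (2 * (2 * j + 1)) - 1 := by ring
      rw [h3, h1, sub_self]
    rcases mul_eq_zero.1 h2 with h3 | h3
    · exfalso
      have h4 : (2 : ZMod p) ^ (2 * j + 1) = 1 := by linear_combination h3
      have h5 := orderOf_dvd_of_pow_eq_one h4
      rw [hk2, mul_assoc, hj] at h5
      have := Nat.le_of_dvd (by omega) h5
      omega
    · have h4 : (2 : ZMod p) ^ (j + 1) * 2 ^ (j + 1) = 2 ^ (2 * j + 1) * 2 := by ring
      rw [h4]
      linear_combination (-2) * h3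
  have h3 := (ZMod.exists_sq_eq_neg_two_iff hp2).1 hsq
  rcases h3 with h3 | h3
  · exfalso
    apply hQ
    unfold Nat.ModEq
    omega
  · exact h3

theorem class_five {m p : ℕ} (hm : Odd m) (h : Rp (4 * m) 8 p) : p % 8 = 5 := by
  obtain ⟨hp, hord, hv, hQ⟩ := h
  have hp2 := ne_two (by have := hm.pos; omega) hord hp
  obtain ⟨k, hk, hk2⟩ := hord
  have h1 := order_dvd_sub hp hp2
  rw [hk2] at h1
  have h2 : 4 ∣ p - 1 := (Dvd.intro (m * k) (by ring)).trans h1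
  have h3 := hp.one_lt
  unfold Nat.ModEq at hQ
  omega

theorem m_dvd {m s p : ℕ} (hs : m ∣ s) (h : ∃ k, Odd k ∧ orderOf (2 : ZMod p) = s * k) :
    m ∣ orderOf (2 : ZMod p) := by
  obtain ⟨k, hk, hk2⟩ := h
  rw [hk2]
  exact hs.mul_right k

theorem result (m : ℕ) (hm : Odd m) (hsq : Squarefree m) (a : ℕ) (ha : a = 3 ∨ a = 5 ∨ a = 7) :
    ∃ c : ℝ, 0 < c ∧ ∃ x₀ : ℕ, ∀ x : ℕ, x₀ ≤ x →
      c * Real.log x ≤ ((Finset.range (x + 1)).filter fun p => p.Prime ∧ p % 8 = a ∧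
        m ∣ orderOf (2 : ZMod p) ∧ Odd (padicValNat p (2 ^ (p - 1) - 1))).card := by
  have key : ∀ s Q : ℕ, (s = m ∨ s = 2 * m ∨ s = 4 * m) → Q ∣ 8 →
      (∀ k, Squarefree (m * k) → k ≡ 1 [MOD 4 * m] → 1 < s * k →
        cv (s * k) 2 % 2 = 1 ∧ ¬ cv (s * k) 2 ≡ 1 [MOD Q]) →
      (∀ p, Rp s Q p → p % 8 = a) →
      ∃ c : ℝ, 0 < c ∧ ∃ x₀ : ℕ, ∀ x : ℕ, x₀ ≤ x →
      c * Real.log x ≤ ((Finset.range (x + 1)).filter fun p => p.Prime ∧ p % 8 = a ∧
        m ∣ orderOf (2 : ZMod p) ∧ Odd (padicValNat p (2 ^ (p - 1) - 1))).card := by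
    intro s Q hs hQ hcv hcl
    obtain ⟨c, hc, x₀, h⟩ := dens_log hm hsq hs hQ hcv
    refine ⟨c, hc, x₀, fun x hx => (h x hx).trans ?_⟩
    have hsub : ((Finset.range (x + 1)).filter fun p => Rp s Q p) ⊆
        ((Finset.range (x + 1)).filter fun p => p.Prime ∧ p % 8 = a ∧
        m ∣ orderOf (2 : ZMod p) ∧ Odd (padicValNat p (2 ^ (p - 1) - 1))) := by
      intro p hp
      rw [Finset.mem_filter] at hp ⊢
      refine ⟨hp.1, hp.2.1, hcl p hp.2, m_dvd ?_ hp.2.2.1, hp.2.2.2.1⟩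
      rcases hs with h | h | h
      · rw [h]
      · rw [h]; exact dvd_mul_left m 2
      · rw [h]; exact dvd_mul_left m 4
    exact_mod_cast Finset.card_le_card hsub
  have hkodd : ∀ k, k ≡ 1 [MOD 4 * m] → Odd k := by
    intro k hk
    have h1 : k ≡ 1 [MOD 2] := hk.of_dvd ⟨2 * m, by ring⟩
    exact Nat.odd_iff.2 h1
  rcases ha with rfl | rfl | rfl
  · refine key (2 * m) 4 (Or.inr (Or.inl rfl)) (by norm_num) ?_ (fun p hp => class_three hm hp)
    intro k hk hk1 hk2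
    have hsq2 : Squarefree (2 * m * k) := by
      rw [mul_assoc, Nat.squarefree_mul]
      · exact ⟨Nat.prime_two.prime.squarefree, hk⟩
      · exact (hm.mul (hkodd k hk1)).coprime_two_left
    have h1 := cv_two_mod hk2 hsq2
    unfold Nat.ModEq
    omega
  · refine key (4 * m) 8 (Or.inr (Or.inr rfl)) (by norm_num) ?_ (fun p hp => class_five hm hp)
    intro k hk hk1 hk2
    have hsq2 : Squarefree (2 * (m * k)) := by
      rw [Nat.squarefree_mul]
      · exact ⟨Nat.prime_two.prime.squarefree, hk⟩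
      · exact (hm.mul (hkodd k hk1)).coprime_two_left
    have h1 := cv_four_mod (a := m * k) (hm.mul (hkodd k hk1)).pos hsq2
    rw [← mul_assoc] at h1
    unfold Nat.ModEq
    omega
  · refine key m 4 (Or.inl rfl) (by norm_num) ?_ (fun p hp => class_seven hm hp)
    intro k hk hk1 hk2
    have h1 := cv_two_mod hk2 hk
    unfold Nat.ModEq
    omega

end Pool.Agent.Results.MP_62d99c_nt.OddClasses
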